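import Pool.Agent.R83.Virus

set_option autoImplicit false

/-!
# Saturation numbers of virus graphs: `K_6^4`

The question is whether `sat(n, K_t^s) - (t + s - 2) / 2 * n` is bounded for all `3 ≤ s ≤ t - 2`. For
`(s, t) = (4, 6)` there is a `K_6^4`-saturated graph on `8 N + 1` vertices with `31 N` edges: `N` blocks, each of
them `K_8` minus a triangle, and a vertex joined in each block to the three vertices of the missing triangle and to
three of the five other vertices.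
-/

namespace Pool.Agent.Results.MP_2b7cb2_co.VirusSixFour

open Pool.Agent.R83.SatNum Pool.Agent.R83.Virus

/-- For every `N ≥ 2`, `sat(8 N + 1, K_6^4) ≤ 31 N`. So `sat(n, K_6^4) - 4 n` is unbounded, and the answer to the
question is negative. -/
theorem result :
    (∀ N : ℕ, 2 ≤ N → satNum (8 * N + 1) (virus 4 6) ≤ 31 * N) ∧
    (¬ ∃ C : ℝ, ∀ n : ℕ, 10 ≤ n → |(satNum n (virus 4 6) : ℝ) - (6 + 4 - 2) / 2 * n| ≤ C) ∧
    ¬ (∀ s t : ℕ, 3 ≤ s → s + 2 ≤ t → ∃ C : ℝ, ∀ n : ℕ, s + t ≤ n →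
      |(satNum n (virus s t) : ℝ) - ((t : ℝ) + s - 2) / 2 * n| ≤ C) := by
  have h1 : ∀ N : ℕ, 2 ≤ N → satNum (8 * N + 1) (virus 4 6) ≤ 31 * N := fun N hN => satNum_virus hN
  have h2 : ¬ ∃ C : ℝ, ∀ n : ℕ, 10 ≤ n → |(satNum n (virus 4 6) : ℝ) - (6 + 4 - 2) / 2 * n| ≤ C := by
    rintro ⟨C, hC⟩
    obtain ⟨N, hN⟩ := exists_nat_gt C
    have h3 := hC (8 * (N + 2) + 1) (by omega)
    have h4 : ((satNum (8 * (N + 2) + 1) (virus 4 6) : ℕ) : ℝ) ≤ ((31 * (N + 2) : ℕ) : ℝ) := by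
      exact_mod_cast h1 (N + 2) (by omega)
    have h5 := (abs_le.1 h3).1
    push_cast at h4 h5
    linarith
  refine ⟨h1, h2, ?_⟩
  intro H
  obtain ⟨C, hC⟩ := H 4 6 (by norm_num) (by norm_num)
  refine h2 ⟨C, fun n hn => ?_⟩
  have := hC n (by omega)
  push_cast at this
  exact this

end Pool.Agent.Results.MP_2b7cb2_co.VirusSixFour
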